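import Mathlib
import Pool.Agent.Helper950.WL.CentMain

/-!
# Tables of groups with central radical have Weisfeiler-Leman dimension `log log n + O(1)`

Let `G` be a finite group and let `G / Z(G)` have `m ≤ 2 ^ t` nontrivial subgroups `T i` that
commute with each other, are permuted by the conjugations and have trivial common centralizer. Let
`T i` be generated by `s` elements `c i l`, and let the normal closure in `T i` of the `r` elements
`c i (ρ l)` have trivial centralizer in `T i`. We show that the Latin square graph of `G` (the graph
of its multiplication table) is identified by the `k`-dimensional Weisfeiler-Leman method for
`k ≥ s + r t + 16`. Examples: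

* `G` is a group with central radical: `G / Z(G)` has no nontrivial abelian normal subgroup. The
  `T i` are the simple factors of the socle of `G / Z(G)`. Then `r = 1`, and the dimension is at
  most `⌈log₂ log₂ |G / Z(G)|⌉ + s + 16` (theorem `centralRadical` below; by the classification of
  the finite simple groups `s = 2` is possible, this is not used here). This class contains the
  abelian groups, the groups without abelian normal subgroups, the quasisimple groups, and all
  central extensions of such groups.
* The centre of `G` is trivial, and `G` is a wreath product of a group `T` with trivial centre by
  an arbitrary permutation group, or lies between `T ^ m` and the wreath product of the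
  automorphism group of `T` with the symmetric group of degree `m`. Here `r = s` is always
  possible.

In contrast to this the groups of order `n` in the starting file `MP_f1a348_lc.GroupWLDimension`
have dimension `Ω(log n)`. For bounded `m` and `s` the isomorphism of these graphs with any other
graph is in polynomial time. The group `G` may need `log n` generators, also modulo its centre
and the product of the factors.

The proof has three parts.

1. The other graph is the graph of a group `H`, because a frame of four cells of the table defines
   the rows, columns and symbols and the product with few variables. By Hall's theorem Duplicator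
   can also play on the groups `G / Z(G)` and `H / Z(H)`.
2. In `G / Z(G)` Spoiler pebbles `s` elements of the product of the factors whose components are
   the generators, and for each bit `b < t` and each `l < r` the part of `c i (ρ l)` that
   belongs to the factors `T i` for which the `b`-th digit of `i` is `1`. An element that commutes
   with those elements of the generated subgroup `K` that centralize `T j` permutes the factors
   without changing the digits, so it fixes all factors and centralizes all of them but `T j`. So
   the generators of `T j` are described by centralizers with a bounded number of variables,
   although these refer to all elements of `K`, and all elements of `G / Z(G)` are fixed by their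
   action on the factors.
3. So Duplicator has to respect the cosets of the centre and the elements of the commutator
   subgroup `G'`. It remains to find an isomorphism of `G` with `H` that is compatible with these
   data. The homomorphisms that are compatible with them and kill a given central subgroup are
   counted by a product over a basis of an abelian quotient of `G`, with factors that Duplicator
   has to respect; as in Lovász's theorem, there are equally many injective ones from `G` to `G`
   and from `G` to `H`.
-/

set_option autoImplicit false

namespace Pool.Agent.Results.MP_f1a348_lc.CentralRadical

open Pool.Agent.W185.SRG Pool.Agent.W185.LSQ Pool.Agent.Helper950.WL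

/-- The case of groups with central radical. -/
theorem centralRadical (G : Type) [Group G] [Fintype G] (s t : ℕ)
    (hG : ∀ N : Subgroup (G ⧸ Subgroup.center G), N.Normal →
      (∀ x ∈ N, ∀ y ∈ N, x * y = y * x) → N = ⊥)
    (hs : ∀ S : Subgroup (G ⧸ Subgroup.center G), IsSimpleFactor S →
      ∃ c : Fin s → G ⧸ Subgroup.center G, Subgroup.closure (Set.range c) = S)
    (hn : Nat.card {S : Subgroup (G ⧸ Subgroup.center G) // IsSimpleFactor S} ≤ 2 ^ t ∨
      Nat.card (G ⧸ Subgroup.center G) ≤ 2 ^ 2 ^ t) :
    WLDimLE (s + t + 16) (latinGraph fun a b : G => a * b) :=
  centralRadical_main hG hs hn

/-- The dimension is logarithmic in the number of permuted factors of the central quotient. -/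
theorem result (G : Type) [Group G] [Fintype G] (m s r t : ℕ)
    (T : Fin m → Subgroup (G ⧸ Subgroup.center G)) (c : Fin m → Fin s → G ⧸ Subgroup.center G)
    (ρ : Fin r → Fin s)
    -- `T i` is generated by the `c i l` and is not trivial
    (hgen : ∀ i, T i = Subgroup.closure (Set.range (c i)))
    (hne : ∀ i, T i ≠ ⊥)
    -- the subgroups `T i` commute with each other and are permuted by the conjugations
    (hcomm : ∀ i j, i ≠ j → ∀ x ∈ T i, ∀ y ∈ T j, x * y = y * x)
    (hperm : ∀ (g : G ⧸ Subgroup.center G) (i : Fin m), ∃ j, ∀ x, x ∈ T i ↔ g * x * g⁻¹ ∈ T j)
    -- their common centralizer is trivial
    (hcent : ∀ x, (∀ i, ∀ y ∈ T i, x * y = y * x) → x = 1)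
    -- in `T i` the normal closure of the elements `c i (ρ l)` has trivial centralizer
    (hclos : ∀ i, ∀ x ∈ T i,
      (∀ l, ∀ y ∈ T i, x * (y * c i (ρ l) * y⁻¹) = (y * c i (ρ l) * y⁻¹) * x) → x = 1)
    (hm : m ≤ 2 ^ t) :
    WLDimLE (s + t * r + 16) (latinGraph fun a b : G => a * b) :=
  central_main (T := T) (c := c) (ρ := ρ)
    { comm := hcomm, gen := hgen, ne := hne, cent := hcent, perm := hperm, nc := hclos } hm

end Pool.Agent.Results.MP_f1a348_lc.CentralRadical
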