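import Pool.Agent.helper747_gi.Cay

/-!
# Almost all Cayley graphs of every finite group are identified by a fixed dimension

The definitions used in the statement are `cayGraph` in `Pool/Agent/helper747_gi/Cay.lean`,
`Identified` in `Pool/Agent/helper747_gi/Haar.lean` and `WLColor`, `wl` and `WLEquiv` (the colours of
tuples in the `k`-dimensional Weisfeiler-Leman algorithm and its inability to distinguish two
graphs) in `Pool/Agent/W893/PR/Defs.lean`.

Outline. Individualise a bounded set `T` of elements of `G`. The number of common neighbours of `x`
and `t` is `r(x⁻¹ t)` with `r(h) = |S ∩ h⁻¹ S|`. For `x ≠ y` and `L` elements `t` of `T` in general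
position one shows that the numbers `r(x⁻¹ t)` and `r(y⁻¹ t)` agree for all these `t` with
probability `O(n ^ (- L / 4))`. In contrast to arbitrary random sets the membership of `b` and of
`b⁻¹` in `S` is decided by one bit, and the changes of `r` caused by `b` may coincide because of
accidental relations of `b` with the elements `h = x⁻¹ t`: `h b = b k`, `b k b = h⁻¹` or
`b b = h⁻¹ k⁻¹`. There are groups in which one relation of this kind holds for a large fraction of
all `b`. The new ingredient is a lemma which says that in every finite group a positive fraction,
depending only on the number of relations, of all `b` satisfies none of the relations that fail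
for `b = 1` (`good_large` in `Pool/Agent/helper747_gi/Hind.lean`). It is proved with Hindman's
theorem: if `x, y, w, x y, x w, y w, x y w` all satisfy one relation of this kind then so does `1`.
-/

set_option autoImplicit false

namespace Pool.Agent.Results.MP_f1a348_lc.RandomCayleyGraphs

open Finset Pool.Agent.helper747_gi

open Classical in
/-- For every `K` there are a dimension `k` and a constant `C` such that for every finite group `G`
of order `n` all but at most the fraction `C n ^ (-K)` of the inverse-closed subsets `S` of `G` have
an undirected Cayley graph which is identified by the `k`-dimensional Weisfeiler-Leman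
algorithm. -/
theorem result (K : ℕ) : ∃ (k : ℕ) (C : ℝ), 0 < C ∧ ∀ (G : Type) [Group G] [Fintype G],
    (((univ : Finset (Finset G)).filter fun S =>
      (∀ s ∈ S, s⁻¹ ∈ S) ∧ ¬ Identified k (cayGraph S)).card : ℝ) ≤
      C / (Fintype.card G : ℝ) ^ K *
        ((univ : Finset (Finset G)).filter fun S => ∀ s ∈ S, s⁻¹ ∈ S).card :=
  mainS K

end Pool.Agent.Results.MP_f1a348_lc.RandomCayleyGraphs
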