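import Pool.Agent.helper747_gi.Haar

/-!
# Almost all Haar graphs of every finite group are identified by a fixed dimension

The definitions used in the statement are `haarGraph` and `Identified` in
`Pool/Agent/helper747_gi/Haar.lean` and `WLColor`, `wl` and `WLEquiv` (the colours of tuples in the
`k`-dimensional Weisfeiler-Leman algorithm and its inability to distinguish two graphs) in
`Pool/Agent/W893/PR/Defs.lean`.

Outline. Individualise a bounded set `T` of elements of `G` on both sides. The number of common
neighbours of `(x, false)` and `(t, false)` is `r(x⁻¹ t)` with `r(h) = |S ∩ h⁻¹ S|`, and `r(h) =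
r(h⁻¹)` is the only coincidence. `T` is built from translates of `{1, a, b, a b}` for noncommuting
`a, b` (other choices if `G` is abelian) such that for all `x ≠ y` many `t ∈ T` have
`x⁻¹ t ≠ (y⁻¹ t)⁻¹`. For `L` such `t` in general position the numbers `r(x⁻¹ t) - r(y⁻¹ t)` depend,
when `S` is exposed outside a large set `A` of points that are far apart, on disjoint subsets of the
bits in `A`, so that they all vanish with probability `O(n ^ (- L / 4))`.
-/

set_option autoImplicit false

namespace Pool.Agent.Results.MP_f1a348_lc.RandomHaarGraphs

open Finset Pool.Agent.helper747_gi

open Classical in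
/-- For every `K` there are a dimension `k` and a constant `C` such that for every finite group `G`
(of order `n`) all but at most `C n ^ (-K) 2 ^ n` of the `2 ^ n` subsets `S` of `G` have a Haar
graph which is identified by the `k`-dimensional Weisfeiler-Leman algorithm. -/
theorem result (K : ℕ) : ∃ (k : ℕ) (C : ℝ), 0 < C ∧ ∀ (G : Type) [Group G] [Fintype G],
    (((univ : Finset (Finset G)).filter fun S => ¬ Identified k (haarGraph S)).card : ℝ) ≤
      C / (Fintype.card G : ℝ) ^ K * 2 ^ Fintype.card G :=
  main K

end Pool.Agent.Results.MP_f1a348_lc.RandomHaarGraphs
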