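import Pool.Agent.helper747_gs.Cor

/-!
# Semirandom graphs with prescribed symmetries are identified by a fixed dimension

The definitions used in the statement are `Free` (the action is free) and `Inv` (invariant graphs)
in `Pool/Agent/helper747_gs/Act.lean`, `Compl` (invariant graphs which agree with a prescribed graph
outside a host graph) and `Landmarks` in `Pool/Agent/helper747_gs/Main.lean`, `Identified` in
`Pool/Agent/helper747_gi/Haar.lean` and `WLColor`, `wl` and `WLEquiv` (the colours of tuples in the
`k`-dimensional Weisfeiler-Leman algorithm and its inability to distinguish two graphs)
in `Pool/Agent/W893/PR/Defs.lean`.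

Outline. Individualise the landmarks `w i`. For two other vertices `u`, `v` and a landmark `w` the
difference of the numbers of common neighbours of `u`, `w` and of `v`, `w` is a linear form in the
bits which decide the adjacency of `w` with the vertices adjacent to exactly one of `u`, `v`.
Its coefficients are `1` and `-1` because the action is free, so the form vanishes with probability
at most `1 / √ t` if there are `t` such bits (Erdős-Littlewood-Offord, by Sperner's theorem). The
bits of different landmarks are disjoint and do not occur in the forms of the other landmarks since
the orbits are different, so the events multiply. That there are many such bits for each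
landmark holds up to an exponentially small probability.
-/

set_option autoImplicit false

namespace Pool.Agent.Results.MP_f1a348_lc.SemirandomSymmetric

open Finset Pool.Agent.helper747_gi Pool.Agent.helper747_gs

open Classical in
/-- For all `K`, `q` there are `L` and `C` such that the following holds. If a group acts freely on
the `n` vertices, `H` and `G0` are invariant graphs, `w 0, …, w (b-1)` are landmarks for the host
graph `H` with parameters `L` and `M`, and `n ≤ M ^ q`, then all but at most the fraction
`C n ^ (-K)` of the invariant graphs which agree with `G0` outside `H` are identified by the
`(b + 1)`-dimensional Weisfeiler-Leman algorithm.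

Two special cases are derived in `Pool/Agent/helper747_gs/Cor.lean`: `orbits` (all invariant
graphs, for every free action with at least `m` orbits) and `host` (trivial group, every two
vertices have at least `M` common neighbours in `H`). In both cases any `k` vertices in
different orbits, with `k` depending only on `K` and `q`, are landmarks. -/
theorem result (K q : ℕ) : ∃ (L : ℕ) (C : ℝ), 0 < C ∧
    ∀ (Γ V : Type) [Group Γ] [MulAction Γ V] [Fintype V] [Nonempty V], Free Γ V →
    ∀ (H G0 : SimpleGraph V), Inv Γ H → Inv Γ G0 →
    ∀ (b M : ℕ) (w : Fin b → V), Fintype.card V ≤ M ^ q → Landmarks Γ H L M w →
    ({G : SimpleGraph V | Compl Γ H G0 G ∧ ¬ Identified (b + 1) G}.ncard : ℝ) ≤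
      C / (Fintype.card V : ℝ) ^ K * {G : SimpleGraph V | Compl Γ H G0 G}.ncard :=
  main K q

end Pool.Agent.Results.MP_f1a348_lc.SemirandomSymmetric
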